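import Pool.Agent.helper85.AQ.SpecB

/-!
# Row ta:BLI (helper45): lifting normalised functions from the residue field
-/

set_option autoImplicit false

namespace Pool.Agent.AQ

open Polynomial Pool.Agent.HC Pool.Agent.HC.SJ Pool.Agent.SJ Pool.Agent.GJ Pool.Agent.TK Pool.Agent.CM
open Pool.Agent.TQJ Pool.Agent.TQG
open Pool.Agent.FJ (VT Om chiO rf rs IsFrobO)
open Pool.Agent.TD (zK DvK bC mK IsPhiK Stab)
open scoped TensorProduct NumberField

noncomputable section

/-- lifting multisets -/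
theorem BLI_lift {α β : Type} (f : α → β) (S : Multiset β) (hS : ∀ q ∈ S, ∃ p, f p = q) :
    ∃ T : Multiset α, T.map f = S := by
  classical
  induction S using Multiset.induction with
  | empty => exact ⟨0, rfl⟩
  | cons q S ih =>
    obtain ⟨p, hp⟩ := hS q (Multiset.mem_cons_self q S)
    obtain ⟨T, hT⟩ := ih (fun r hr => hS r (Multiset.mem_cons_of_mem hr))
    exact ⟨p ::ₘ T, by rw [Multiset.map_cons, hT, hp]⟩

/-- the multiset of the branch points -/
def BLI_A {A : Type} {n : ℕ} (μ : Fin (n + 1) → ℕ) (a : Fin (n + 1) → A) : Multiset A :=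
  ∑ k, μ k • {a k}

theorem BLI_fp {A B : Type} [CommRing A] [CommRing B] {n : ℕ} (μ : Fin (n + 1) → ℕ)
    (a : Fin (n + 1) → A) (b : Fin (n + 1) → B) (φ : A →+* B) (h : ∀ j, φ (a j) = b j) :
    fp B μ b = (((BLI_A μ a).map φ).map fun u => X - C u).prod := by
  have h1 : ((BLI_A μ a).map φ).map (fun u => (X - C u : B[X])) = ∑ k, μ k • {(X - C (b k) : B[X])} := by
    rw [Multiset.map_map, BLI_A]
    have h2 := map_sum (Multiset.mapAddMonoidHom ((fun u => (X - C u : B[X])) ∘ φ))
      (fun k => μ k • ({a k} : Multiset A)) Finset.univ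
    rw [Multiset.coe_mapAddMonoidHom] at h2
    rw [h2]
    refine Finset.sum_congr rfl fun k _ => ?_
    rw [Multiset.map_nsmul, Multiset.map_singleton, Function.comp_apply, h]
  rw [h1, Multiset.prod_sum, fp]
  refine Finset.prod_congr rfl fun k _ => ?_
  rw [Multiset.prod_nsmul, Multiset.prod_singleton]

theorem BLI_roots {F : Type} [Field F] (c : F) (hc : c ≠ 0) (M : Multiset F) :
    (C c * (M.map fun u => X - C u).prod : F[X]).roots = M := by
  rw [roots_C_mul _ hc, roots_multiset_prod_X_sub_C]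

theorem BLI_map {A B : Type} [CommRing A] [CommRing B] {l n : ℕ} {μ : Fin (n + 1) → ℕ}
    {a : Fin (n + 1) → A} {b : Fin (n + 1) → B} (φ : A →+* B) (h : ∀ j, φ (a j) = b j)
    (G : CR A l μ a) (γ : Fin l → A[X])
    (hG : G * CR.pol (fp A μ a) = ∑ s : Fin l, CR.pol (γ s * ∏ k, (X - C (a k)) ^ (μ k - (s : ℕ) * μ k / l)) *
      CR.y ^ (s : ℕ)) :
    (mp φ h G : CR B l μ b) * CR.pol (fp B μ b) =
      ∑ s : Fin l, CR.pol ((γ s).map φ * ∏ k, (X - C (b k)) ^ (μ k - (s : ℕ) * μ k / l)) *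
        CR.y ^ (s : ℕ) := by
  have h1 := congrArg (mp φ h) hG
  have hp : ∀ e : Fin (n + 1) → ℕ, (∏ k, (X - C (a k)) ^ e k : A[X]).map φ = ∏ k, (X - C (b k)) ^ e k := by
    intro e
    rw [Polynomial.map_prod]
    refine Finset.prod_congr rfl fun k _ => ?_
    rw [Polynomial.map_pow, Polynomial.map_sub, Polynomial.map_X, Polynomial.map_C, h]
  have h2 : (fp A μ a).map φ = fp B μ b := hp μ
  rw [map_mul, mp_pol, map_sum, h2] at h1
  rw [h1]
  refine Finset.sum_congr rfl fun s _ => ?_
  rw [map_mul, map_pow, mp_y, mp_pol, Polynomial.map_mul, hp]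

theorem BLI (hBE1 : BE1_stmt) (hBE2 : BE2_stmt) (hMK : TD.MK_stmt) (h4 : YA4_stmt) (h5 : KA5_stmt)
    (hB1 : KB1_stmt) (hB3 : KB3_stmt) (hB4 : KB4_stmt) (hF1 : FJ.B1_stmt) (hF3 : FJ.B3_stmt) :
    BLI_stmt := by
  classical
  intro K _ _ O l n _ _ μ a' a b _ _ h h' hb U hNF
  have : IsAlgClosed (rf O) := (hF1 K O).1
  have hrl : (l : rf O) ≠ 0 := NeZero.ne _
  have hKl : (l : K) ≠ 0 := by
    intro h0
    apply hrl
    have h1 : (l : O) = 0 := by
      apply Subtype.val_injective
      show ((l : O) : K) = ((0 : O) : K)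
      rw [ZeroMemClass.coe_zero]
      rw [← h0]
      exact map_natCast O.subtype l
    have h2 : rs O (l : O) = 0 := by rw [h1, map_zero]
    rwa [map_natCast] at h2
  have : NeZero (l : K) := ⟨hKl⟩
  obtain ⟨γb, hEx⟩ := hBE1 (rf O) l n μ b hb U hNF
  have hlift : ∀ s, ∃ γ : O[X], γ.map (rs O) = γb s ∧ γ.degree = (γb s).degree := by
    intro s
    have h1 : γb s ∈ Polynomial.lifts (rs O) :=
      (Polynomial.mem_lifts _).2 (Polynomial.map_surjective (rs O) IsLocalRing.residue_surjective _)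
    exact Polynomial.exists_degree_eq_of_mem_lifts h1
  choose γ hγ1 hγ2 using hlift
  obtain ⟨u, hu⟩ := (CR.unit_f (A := O) (l := l) (μ := μ) (a := a')).exists_left_inv
  set G : CR O l μ a' := (∑ s : Fin l, CR.pol (γ s * ∏ k, (X - C (a' k)) ^ (μ k - (s : ℕ) * μ k / l)) *
    CR.y ^ (s : ℕ)) * u with hG
  have hGe : G * CR.pol (fp O μ a') =
      ∑ s : Fin l, CR.pol (γ s * ∏ k, (X - C (a' k)) ^ (μ k - (s : ℕ) * μ k / l)) * CR.y ^ (s : ℕ) := by
    rw [hG, mul_assoc, hu, mul_one]
  have hGK := BLI_map O.subtype h G γ hGe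
  have hGr := BLI_map (rs O) h' G γ hGe
  have hGhb : (mp (rs O) h' G : CR (rf O) l μ b) = hb := by
    have h1 : (mp (rs O) h' G : CR (rf O) l μ b) * CR.pol (fp (rf O) μ b) =
        hb * CR.pol (fp (rf O) μ b) := by
      rw [hGr, hEx.eq]
      refine Finset.sum_congr rfl fun s _ => ?_
      rw [hγ1]
    exact (CR.unit_f (A := rf O) (l := l) (μ := μ) (a := b)).mul_right_cancel h1
  have hExK : Ex (Multiset.card U) (mp O.subtype h G : CR K l μ a) (fun s => (γ s).map O.subtype) := by
    refine ⟨hGK, fun s => ?_⟩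
    rcases hEx.deg s with h1 | h1
    · left
      have h2 : γ s = 0 := by rw [← degree_eq_bot, hγ2, h1, degree_zero]
      show (γ s).map O.subtype = 0
      rw [h2, Polynomial.map_zero]
    · right
      have h2 : ((γ s).map O.subtype).natDegree ≤ (γb s).natDegree :=
        natDegree_map_le.trans_eq (natDegree_eq_of_degree_eq (hγ2 s))
      have h3 := Nat.mul_le_mul_left l h2
      exact (Nat.add_le_add_right h3 _).trans h1
  obtain ⟨R, hRd, hRn⟩ := hBE2 K l n μ a _ _ _ hExK
  obtain ⟨g, N, hg1, hg2⟩ := hB3 K O l n μ a' a b h h' G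
  rw [hRn, ← map_mul] at hg1
  have hgK : R * fp K μ a ^ N = g.map O.subtype := BR_inj K μ a hg1
  obtain ⟨cb, hcb, hnb⟩ := hNF.norm
  rw [hGhb, hnb, ← map_mul] at hg2
  have hgr : C cb * (U.map fun q => X - C q.1.1).prod * fp (rf O) μ b ^ N = g.map (rs O) :=
    BR_inj (rf O) μ b hg2
  set AO : Multiset O := BLI_A μ a' with hAO
  have fK : fp K μ a = ((AO.map O.subtype).map fun u => X - C u).prod := BLI_fp μ a' a O.subtype h
  have fR : fp (rf O) μ b = ((AO.map (rs O)).map fun u => X - C u).prod := BLI_fp μ a' b (rs O) h'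
  have hUx : (U.map fun q => (X - C q.1.1 : (rf O)[X])) = ((U.map fun q => q.1.1).map fun u => X - C u) := by
    rw [Multiset.map_map]
    rfl
  have hgr2 : g.map (rs O) =
      C cb * ((U.map (fun q => q.1.1) + N • AO.map (rs O)).map fun u => X - C u).prod := by
    rw [← hgr, fR, hUx, Multiset.map_add, Multiset.prod_add, Multiset.map_nsmul, Multiset.prod_nsmul,
      mul_assoc]
  have hgr0 : g.map (rs O) ≠ 0 := by
    rw [hgr2]
    exact mul_ne_zero (C_ne_zero.2 hcb)
      (monic_multiset_prod_of_monic _ _ fun q _ => monic_X_sub_C _).ne_zero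
  have hg0 : g ≠ 0 := by
    rintro rfl
    exact hgr0 (Polynomial.map_zero _)
  have hgK0 : g.map O.subtype ≠ 0 := (Polynomial.map_ne_zero_iff Subtype.val_injective).2 hg0
  have hR0 : R ≠ 0 := by
    rintro rfl
    apply hgK0
    rw [← hgK, zero_mul]
  have hRs : R = C R.leadingCoeff * (R.roots.map fun u => X - C u).prod :=
    (IsAlgClosed.splits R).eq_prod_roots
  have hM : g.map O.subtype =
      C R.leadingCoeff * ((R.roots + N • AO.map O.subtype).map fun u => X - C u).prod := by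
    rw [← hgK, fK, Multiset.map_add, Multiset.prod_add, Multiset.map_nsmul, Multiset.prod_nsmul,
      ← mul_assoc, ← hRs]
  obtain ⟨R', hR', c', hc', hgc⟩ := hF3 K O g _ _ hgr0 hM
  have hfilt : (R.roots + N • AO.map O.subtype).filter (fun u => u ∈ O) =
      R.roots.filter (fun u => u ∈ O) + N • AO.map O.subtype := by
    rw [Multiset.filter_add]
    congr 1
    rw [Multiset.filter_eq_self]
    intro v hv
    obtain ⟨w, _, rfl⟩ := Multiset.mem_map.1 (Multiset.mem_of_mem_nsmul hv)
    exact w.2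
  obtain ⟨R1, hR1⟩ := BLI_lift (fun v : O => (v : K)) (R.roots.filter (fun u => u ∈ O))
    (fun q hq => ⟨⟨q, (Multiset.mem_filter.1 hq).2⟩, rfl⟩)
  have hR'eq : R' = R1 + N • AO := by
    apply Multiset.map_injective (Subtype.val_injective : Function.Injective (fun v : O => (v : K)))
    rw [hR', hfilt, Multiset.map_add, Multiset.map_nsmul, hR1]
    rfl
  have e1 : (g.map (rs O)).roots = R'.map (rs O) := by
    have h1 : (R'.map fun u => (X - C (rs O u) : (rf O)[X])) = ((R'.map (rs O)).map fun u => X - C u) := by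
      rw [Multiset.map_map]
      rfl
    rw [hgc, h1, BLI_roots _ hc']
  have e2 : (g.map (rs O)).roots = U.map (fun q => q.1.1) + N • AO.map (rs O) := by
    rw [hgr2, BLI_roots _ hcb]
  have e3 : R1.map (rs O) = U.map (fun q => q.1.1) := by
    rw [e1, hR'eq, Multiset.map_add, Multiset.map_nsmul] at e2
    exact add_right_cancel e2
  have hcard : Multiset.card R1 = Multiset.card U := by
    have h1 := congrArg Multiset.card e3
    rwa [Multiset.card_map, Multiset.card_map] at h1
  have hall : R.roots.filter (fun u => u ∈ O) = R.roots := by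
    apply Multiset.eq_of_le_of_card_le (Multiset.filter_le _ _)
    calc Multiset.card R.roots ≤ R.natDegree := card_roots' R
      _ ≤ Multiset.card U := hRd
      _ = Multiset.card R1 := hcard.symm
      _ = Multiset.card (R.roots.filter (fun u => u ∈ O)) := by rw [← hR1, Multiset.card_map]
  rw [hall] at hR1
  have hne : ∀ u ∈ R1, ∀ j, rs O u ≠ b j := by
    intro u hu j hj
    have h3 : rs O u ∈ U.map (fun q => q.1.1) := by
      rw [← e3]
      exact Multiset.mem_map_of_mem _ hu
    obtain ⟨q, _, hq⟩ := Multiset.mem_map.1 h3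
    exact ((h4 (rf O) l n μ b).2 q).1 j (by rw [hq, hj])
  have hev : ∀ i, R.eval (a i) ≠ 0 := by
    intro i hi
    have h1 : a i ∈ R.roots := (mem_roots hR0).2 hi
    rw [← hR1, Multiset.mem_map] at h1
    obtain ⟨v, hv, hva⟩ := h1
    have h2 : v = a' i := Subtype.val_injective (hva.trans (h i).symm)
    exact hne v hv i (by rw [h2, h'])
  obtain ⟨S', c, hc, hspan, hRS, -⟩ := hMK K l n μ a (mp O.subtype h G) R hR0 hev hRn
  have hroots2 : R.roots = S'.map (fun q => q.1.1) := by
    have h1 : (S'.map fun q => (X - C q.1.1 : K[X])) = ((S'.map fun q => q.1.1).map fun u => X - C u) := by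
      rw [Multiset.map_map]
      rfl
    conv_lhs => rw [hRS]
    rw [h1, BLI_roots _ hc]
  have hpos : ∀ j, 0 < μ j := Good.pos (K := K) (l := l) (μ := μ) (a := a)
  obtain ⟨b1, b2, b3⟩ := hB1 K O l n μ a' a b h h' hpos
  have hlift2 : ∀ q ∈ S', ∃ q' : Pc O l μ a', mapPc O.subtype h q' = q := by
    intro q hq
    have h1 : q.1.1 ∈ R.roots := by
      rw [hroots2]
      exact Multiset.mem_map_of_mem _ hq
    rw [← hR1, Multiset.mem_map] at h1
    obtain ⟨v, hv, hvq⟩ := h1
    exact (b1 q).2 ⟨v, hvq, hne v hv⟩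
  obtain ⟨S1, hS1⟩ := BLI_lift (mapPc O.subtype h) S' hlift2
  have hb0 : hb ≠ 0 := by
    intro h0
    apply (h5 (rf O) l n μ b).1 U
    rw [← hNF.div, h0]
    exact Ideal.span_singleton_eq_bot.2 rfl
  have hspanr := hB4 K O l n μ a' a b h h' G S' (by rw [hGhb]; exact hb0) hspan
  have hfm : S'.filterMap (red O h h') = S1.map (mapPc (rs O) h') := by
    rw [← hS1, Multiset.filterMap_map]
    have h1 : (red O h h' ∘ mapPc O.subtype h) = some ∘ mapPc (rs O) h' := funext b3
    rw [h1, Multiset.filterMap_eq_map]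
  refine ⟨G, S1, ⟨?_, c, hc, ?_⟩, hGhb, ?_⟩
  · rw [hS1]
    exact hspan
  · rw [hS1, hRn, ← hRS]
  · apply (h5 (rf O) l n μ b).2.2.1 _ _
    rw [← hfm, ← hspanr, hGhb]
    exact hNF.div

end

end Pool.Agent.AQ
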