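import Pool.Agent.helper85.AQ.SpecB
import Pool.Agent.helper72.CM.YA4
import Pool.Agent.helper7.TK.KB1

/-!
# Row ta:BYP (helper45): the data `Dv` over a valuation ring, any residue characteristic prime to `l`
-/

set_option autoImplicit false

namespace Pool.Agent.AQ

open Polynomial Pool.Agent.HC Pool.Agent.HC.SJ Pool.Agent.SJ Pool.Agent.GJ Pool.Agent.TK Pool.Agent.CM
open Pool.Agent.TQJ Pool.Agent.TQG
open Pool.Agent.FJ (VT Om chiO rf rs IsFrobO)
open Pool.Agent.TD (zK DvK bC mK IsPhiK Stab)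
open scoped TensorProduct NumberField

noncomputable section

/-- the elements of a fibre -/
theorem BYP_mem {K : Type} [Field K] {l n : ℕ} [Fact l.Prime] {μ : Fin (n + 1) → ℕ}
    {a : Fin (n + 1) → K} (T : Multiset (Pc K l μ a)) (hT : IsFib T) (e : K)
    (he : ∀ q ∈ T, q.1.1 = e) : T.Nodup ∧ ∀ q, q ∈ T ↔ q.1.1 = e := by
  have hl : l ≠ 0 := (Fact.out (p := l.Prime)).ne_zero
  obtain ⟨z, v, e0, hz, hTm⟩ := hT
  have hmem : ∀ k < l, ∃ q ∈ T, q.1 = (e0, z ^ k * v) := by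
    intro k hk
    have h1 : (e0, z ^ k * v) ∈ T.map (fun q => q.1) := by
      rw [hTm, Multiset.mem_map]
      exact ⟨k, Multiset.mem_range.2 hk, rfl⟩
    rw [Multiset.mem_map] at h1
    exact h1
  obtain ⟨q0, hq0, hq0e⟩ := hmem 0 (Nat.pos_of_ne_zero hl)
  rw [pow_zero, one_mul] at hq0e
  have h01 : q0.1.1 = e0 := congrArg Prod.fst hq0e
  have h02 : q0.1.2 = v := congrArg Prod.snd hq0e
  have hv : v ≠ 0 := by
    rw [← h02]
    exact q0.2.2.ne_zero
  have hee : e0 = e := by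
    rw [← h01]
    exact he q0 hq0
  have hnd : T.Nodup := by
    have h1 : (T.map (fun q => q.1)).Nodup := by
      rw [hTm]
      refine Multiset.Nodup.map_on ?_ (Multiset.nodup_range l)
      intro i hi j hj hij
      have h2 : z ^ i * v = z ^ j * v := congrArg Prod.snd hij
      exact hz.pow_inj (Multiset.mem_range.1 hi) (Multiset.mem_range.1 hj) (mul_right_cancel₀ hv h2)
    exact Multiset.Nodup.of_map _ h1
  refine ⟨hnd, fun q => ⟨he q, fun hq => ?_⟩⟩
  have h3 : q.1.2 ^ l = v ^ l := by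
    rw [q.2.1, ← h02, q0.2.1, hq, h01, hee]
  have h4 : (q.1.2 / v) ^ l = 1 := by
    rw [div_pow, h3, div_self (pow_ne_zero _ hv)]
  have : NeZero l := ⟨hl⟩
  obtain ⟨k, hk, hk2⟩ := hz.eq_pow_of_pow_eq_one h4
  obtain ⟨q', hq', hq'e⟩ := hmem k hk
  have h5 : q' = q := by
    apply Subtype.ext
    rw [hq'e, hk2, div_mul_cancel₀ _ hv, hee, ← hq]
  rw [← h5]
  exact hq'

theorem BYP_card {K : Type} [Field K] {l n : ℕ} {μ : Fin (n + 1) → ℕ}
    {a : Fin (n + 1) → K} (T : Multiset (Pc K l μ a)) (hT : IsFib T) : Multiset.card T = l := by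
  obtain ⟨z, v, e0, hz, hTm⟩ := hT
  have h1 := congrArg Multiset.card hTm
  rwa [Multiset.card_map, Multiset.card_map, Multiset.card_range] at h1

/-- the powers of `x - e` -/
theorem BYP_g (h4 : YA4_stmt) (h5 : YA5_stmt) (K : Type) [Field K] [IsAlgClosed K] (l n : ℕ)
    [Fact l.Prime] [NeZero (l : K)] (μ : Fin (n + 1) → ℕ) (a : Fin (n + 1) → K) [Good K l μ a]
    (T : Multiset (Pc K l μ a)) (hT : IsFib T) (e : K) (he : ∀ q ∈ T, q.1.1 = e) (m N : ℕ) :
    NFK (((CR.pol (X - C e) : CR K l μ a) ^ m) ^ N) (N • (m • T)) := by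
  have hl : l ≠ 0 := (Fact.out (p := l.Prime)).ne_zero
  have hne : T ≠ 0 := by
    intro h0
    have := BYP_card T hT
    rw [h0, Multiset.card_zero] at this
    exact hl this.symm
  obtain ⟨q, hq⟩ := Multiset.exists_mem_of_ne_zero hne
  obtain ⟨-, T0, hF, hT0, hN⟩ := (h4 K l n μ a).2 q
  have hqe : q.1.1 = e := he q hq
  rw [YA4_x, hqe] at hN
  have he' : ∀ q' ∈ q ::ₘ T0, q'.1.1 = e := by
    intro q' hq'
    rcases Multiset.mem_cons.1 hq' with h | h
    · rw [h, hqe]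
    · rw [hT0 q' h, hqe]
  obtain ⟨n1, m1⟩ := BYP_mem T hT e he
  obtain ⟨n2, m2⟩ := BYP_mem _ hF e he'
  have hTT : q ::ₘ T0 = T := by
    rw [Multiset.Nodup.ext n2 n1]
    intro q'
    rw [m1, m2]
  rw [hTT] at hN
  exact (h5 K l n μ a).2.1 _ _ N ((h5 K l n μ a).2.1 _ _ m hN)

/-- the fibre over a ring -/
def BYP_pt {A : Type} [CommRing A] {l n : ℕ} {μ : Fin (n + 1) → ℕ} {a : Fin (n + 1) → A}
    (q0 : Pc A l μ a) (z : A) (hz : z ^ l = 1) (hzu : IsUnit z) (k : ℕ) : Pc A l μ a :=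
  ⟨(q0.1.1, z ^ k * q0.1.2), by
    refine ⟨?_, (hzu.pow k).mul q0.2.2⟩
    show (z ^ k * q0.1.2) ^ l = _
    rw [mul_pow, ← pow_mul, mul_comm k l, pow_mul, hz, one_pow, one_mul]
    exact q0.2.1⟩

theorem BYP_fib {A B : Type} [CommRing A] [Field B] {l n : ℕ} {μ : Fin (n + 1) → ℕ}
    {a : Fin (n + 1) → A} {b : Fin (n + 1) → B} (φ : A →+* B) (h : ∀ j, φ (a j) = b j)
    (q0 : Pc A l μ a) (z : A) (hz : z ^ l = 1) (hzu : IsUnit z) (hp : IsPrimitiveRoot (φ z) l) :
    IsFib (((Multiset.range l).map (BYP_pt q0 z hz hzu)).map (mapPc φ h)) ∧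
    ∀ q ∈ ((Multiset.range l).map (BYP_pt q0 z hz hzu)).map (mapPc φ h), q.1.1 = φ q0.1.1 := by
  constructor
  · refine ⟨φ z, φ q0.1.2, φ q0.1.1, hp, ?_⟩
    rw [Multiset.map_map, Multiset.map_map]
    refine Multiset.map_congr rfl fun k _ => ?_
    show (φ q0.1.1, φ (z ^ k * q0.1.2)) = (φ q0.1.1, φ z ^ k * φ q0.1.2)
    rw [map_mul, map_pow]
  · intro q hq
    rw [Multiset.map_map, Multiset.mem_map] at hq
    obtain ⟨k, -, rfl⟩ := hq
    rfl

theorem BYP (hBM6 : BM6_stmt) (hBD1 : BD1_stmt) (h4 : YA4_stmt) (h5 : YA5_stmt) (h7 : KA7_stmt)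
    (hB1 : KB1_stmt) (hB5 : KB5_stmt) (hF1 : FJ.B1_stmt) : BYP_stmt := by
  intro K _ _ O l n _ _ hl2 μ a' a b _ _ h h' _ _ sp hsp B N hN c hc
  have hlp : l.Prime := Fact.out
  have hl : l ≠ 0 := hlp.ne_zero
  have : IsAlgClosed (rf O) := (hF1 K O).1
  have hrl : (l : rf O) ≠ 0 := NeZero.ne _
  have hKl : (l : K) ≠ 0 := by
    intro h0
    apply hrl
    have h1 : (l : O) = 0 := by
      apply Subtype.val_injective
      show ((l : O) : K) = ((0 : O) : K)
      rw [ZeroMemClass.coe_zero]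
      rw [← h0]
      exact map_natCast O.subtype l
    have h2 : rs O (l : O) = 0 := by rw [h1, map_zero]
    rwa [map_natCast] at h2
  have : NeZero (l : K) := ⟨hKl⟩
  -- the divisor S
  obtain ⟨S, hS, hSB⟩ := hBM6 K O l n hl2 μ a' a b h h' B c
  -- the value e
  have : Infinite (rf O) := inferInstance
  classical
  obtain ⟨eb, heb⟩ := Infinite.exists_notMem_finset (B ∪ Finset.univ.image b)
  rw [Finset.mem_union, not_or] at heb
  obtain ⟨hebB, hebb⟩ := heb
  obtain ⟨e, he⟩ := IsLocalRing.residue_surjective (R := O) eb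
  have hej : ∀ j, rs O e ≠ b j := by
    intro j hj
    apply hebb
    rw [Finset.mem_image]
    exact ⟨j, Finset.mem_univ j, by rw [← hj]; exact he⟩
  have hpos : ∀ j, 0 < μ j := Good.pos (K := K) (l := l) (μ := μ) (a := a)
  obtain ⟨b1, b2, b3⟩ := hB1 K O l n μ a' a b h h' hpos
  -- a point over e
  obtain ⟨q, hq⟩ := (h4 K l n μ a).1 (e : K) (by
    intro j hj
    apply hej j
    have h1 : e = a' j := by
      apply Subtype.val_injective
      rw [hj]
      exact (h j).symm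
    rw [h1]
    exact h' j)
  obtain ⟨q0, hq0⟩ := (b1 q).2 ⟨e, hq.symm, hej⟩
  have hq0e : q0.1.1 = e := by
    apply Subtype.val_injective
    have h1 : (mapPc O.subtype h q0).1.1 = q.1.1 := by rw [hq0]
    exact h1.trans hq
  -- the root of unity
  obtain ⟨z, hz⟩ := HasEnoughRootsOfUnity.exists_primitiveRoot K l
  have hzO : z ∈ O := KB1_mem_of_pow O l hl z (by rw [hz.pow_eq_one]; exact O.one_mem)
  set z' : O := ⟨z, hzO⟩ with hz'
  have hz'1 : z' ^ l = 1 := by
    apply Subtype.val_injective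
    show ((z' ^ l : O) : K) = ((1 : O) : K)
    rw [SubmonoidClass.coe_pow, OneMemClass.coe_one]
    exact hz.pow_eq_one
  have hz'u : IsUnit z' := IsUnit.of_pow_eq_one hz'1 hl
  have hzne : z' ≠ 1 := by
    intro h0
    apply hz.ne_one hlp.one_lt
    have := congrArg (fun y : O => (y : K)) h0
    exact this
  have hzr : rs O z' ≠ 1 := by
    intro h0
    have h1 : (∑ i ∈ Finset.range l, z' ^ i) * (z' - 1) = 0 := by
      rw [geom_sum_mul, hz'1, sub_self]
    have h2 : ∑ i ∈ Finset.range l, z' ^ i = 0 := by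
      rcases mul_eq_zero.1 h1 with h2 | h2
      · exact h2
      · exact absurd (sub_eq_zero.1 h2) hzne
    have h3 := congrArg (rs O) h2
    rw [map_zero, map_sum] at h3
    have h4' : ∑ i ∈ Finset.range l, rs O (z' ^ i) = (l : rf O) := by
      rw [Finset.sum_congr rfl (g := fun _ => (1 : rf O))]
      · simp
      · intro i _
        rw [map_pow, h0, one_pow]
    rw [h4'] at h3
    exact hrl h3
  have hpr : IsPrimitiveRoot (rs O z') l := by
    have h1 : rs O z' ^ l = 1 := by rw [← map_pow, hz'1, map_one]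
    have h2 : orderOf (rs O z') = l := orderOf_eq_prime h1 hzr
    have h3 := IsPrimitiveRoot.orderOf (rs O z')
    rwa [h2] at h3
  have hpK : IsPrimitiveRoot (O.subtype z') l := hz
  set T : Multiset (Pc O l μ a') := (Multiset.range l).map (BYP_pt q0 z' hz'1 hz'u) with hT
  obtain ⟨fK, eK⟩ := BYP_fib O.subtype h q0 z' hz'1 hz'u hpK
  obtain ⟨fR, eR⟩ := BYP_fib (rs O) h' q0 z' hz'1 hz'u hpr
  rw [← hT] at fK eK fR eR
  set M : ℕ := Multiset.card S with hM
  set g : CR O l μ a' := ((CR.pol (X - C q0.1.1) : CR O l μ a') ^ M) ^ N with hg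
  have gK := BYP_g h4 h5 K l n μ a _ fK (O.subtype q0.1.1) eK M N
  have gR := BYP_g h4 h5 (rf O) l n μ b _ fR (rs O q0.1.1) eR M N
  have mK' : (mp O.subtype h g : CR K l μ a) = ((CR.pol (X - C (O.subtype q0.1.1)) : CR K l μ a) ^ M) ^ N := by
    rw [hg, map_pow, map_pow, mp_pol, Polynomial.map_sub, Polynomial.map_X, Polynomial.map_C]
  have mR' : (mp (rs O) h' g : CR (rf O) l μ b) = ((CR.pol (X - C (rs O q0.1.1)) : CR (rf O) l μ b) ^ M) ^ N := by
    rw [hg, map_pow, map_pow, mp_pol, Polynomial.map_sub, Polynomial.map_X, Polynomial.map_C]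
  rw [← mK'] at gK
  rw [← mR'] at gR
  -- the function f
  have hcN : ((N • (S.map (mapPc O.subtype h))).map cl).prod = 1 := by
    rw [Multiset.map_nsmul, Multiset.prod_nsmul, ← hS, hc]
  obtain ⟨f1, hf1⟩ := ((h7 K l n μ a).2.2.1 _).1 hcN
  obtain ⟨f2, hf2⟩ := (h5 K l n μ a).1 f1 _ hf1.symm
  have hcomm : ∀ (α : Type) (U : Multiset α), l • (N • U) = N • (l • U) := by
    intro α U
    rw [smul_comm]
  rw [hcomm] at hf2
  obtain ⟨d2, c2, hc2, e2⟩ := hf2
  have hgm : (gp K l μ a).Monic := gp_monic K l μ a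
  have : Module.Finite (BR K μ a) (CR K l μ a) := hgm.finite_adjoinRoot
  have : Module.Free (BR K μ a) (CR K l μ a) := hgm.free_adjoinRoot
  have : Nontrivial (CR K l μ a) := (ev q).domain_nontrivial
  have hf20 : f2 ≠ 0 := by
    intro h0
    rw [h0, Algebra.norm_zero] at e2
    have h1 : (C c2 * ((N • l • S.map (mapPc O.subtype h)).map fun q => X - C q.1.1).prod : K[X]) = 0 := by
      apply BR_inj K μ a
      rw [← e2, map_zero]
    rcases mul_eq_zero.1 h1 with h2 | h2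
    · exact hc2 (C_eq_zero.1 h2)
    · rw [Multiset.prod_eq_zero_iff, Multiset.mem_map] at h2
      obtain ⟨r, -, hr⟩ := h2
      exact X_sub_C_ne_zero _ hr
  obtain ⟨c3, f0, hc3, hf0, hff⟩ := hB5 K O l n μ a' a b h h' f2 hf20
  have hNK : NFK (mp O.subtype h f0 : CR K l μ a) (N • (l • S.map (mapPc O.subtype h))) := by
    refine ⟨?_, c2 / c3 ^ l, div_ne_zero hc2 (pow_ne_zero _ hc3), ?_⟩
    · rw [← d2, hff]
      refine (Ideal.span_singleton_mul_left_unit ?_ _).symm
      exact (isUnit_iff_ne_zero.2 hc3).map _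
    · rw [hff, map_mul, ← CR.pol_C, YA4_norm] at e2
      have hne : algebraMap K[X] (BR K μ a) (C c3 ^ l) ≠ 0 := by
        intro h0
        have h1 : (C c3 ^ l : K[X]) = 0 := by
          apply BR_inj K μ a
          rw [h0, map_zero]
        exact pow_ne_zero _ (C_ne_zero.2 hc3) h1
      apply mul_left_cancel₀ hne
      rw [e2, ← map_mul]
      congr 1
      rw [← mul_assoc, ← C_pow, ← C_mul, mul_div_cancel₀ _ (pow_ne_zero _ hc3)]
  have hNR : NFK (mp (rs O) h' f0 : CR (rf O) l μ b) (N • (l • S.map (mapPc (rs O) h'))) := by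
    have h1 := hBD1 K O l n μ a' a b h h' f0 (N • (l • S)) (by
      rw [Multiset.map_nsmul, Multiset.map_nsmul]
      exact hNK) hf0
    rwa [Multiset.map_nsmul, Multiset.map_nsmul] at h1
  refine ⟨S, T, f0, g, ⟨hS.symm, fK, hNK, ?_⟩, ⟨?_, fR, hNR, ?_⟩, ?_⟩
  · rw [Multiset.card_map]
    exact gK
  · rw [hS, map_multiset_prod, Multiset.map_map, Multiset.map_map, Multiset.map_map]
    congr 1
    refine Multiset.map_congr rfl fun q _ => ?_
    show cl (mapPc (rs O) h' q) = sp (cl (mapPc O.subtype h q))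
    rw [hsp, b3]
    rfl
  · rw [Multiset.card_map]
    exact gR
  · intro q hq
    rcases Multiset.mem_add.1 hq with h1 | h1
    · exact hSB q h1
    · rw [hT, Multiset.mem_map] at h1
      obtain ⟨k, -, rfl⟩ := h1
      show rs O q0.1.1 ∉ B
      rw [hq0e]
      have h2 : rs O e = eb := he
      rw [h2]
      exact hebB

end

end Pool.Agent.AQ
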